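import Pool.Agent.H606R2.GPP.Main
import Pool.Agent.H612.PatOf

/-!
# Geometric partial planarity is `∃ℝ`-complete

The hardness proof reduces from the realizability of strict sign matrices (`SR 3`, `SRN 2`): a row
is a point of the plane, and every column is represented by two rigid spikes of crossing-free
edges. In at least one of the two spikes of a column the edges to the points force the points of
the two classes to be separated by a line through the tip of the spike, with the crossing-free
edges `z a`, `z a'` on different sides.
-/

namespace Pool.Agent.Results.MP_881548_lc.GeometricPartialPlanarity

open Pool.Agent.NPC Pool.Agent.NPC.ER Pool.Agent.NPC.ER.Pat Pool.Agent.NPC.ER.GPP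

theorem isPatOf : IsPatOf Sgn.patOf where
  poly := Sgn.poly_patOf Poly.id
  wf := Sgn.patOf_wf
  sound := fun _ h => Sgn.patOf_sound h
  complete := fun _ h => Sgn.patOf_complete h

/-- Geometric partial planarity is `∃ℝ`-complete under polynomial-time many-one reductions. -/
theorem result : ERComplete (lang fun G : Inst => IsInst G ∧ PartiallyPlanar G) :=
  ⟨gpp_mem, gpp_hard isPatOf⟩

end Pool.Agent.Results.MP_881548_lc.GeometricPartialPlanarity
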